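import Pool.Agent.N212.KS.Stm

set_option autoImplicit false

/-! # KS/PER: a point whose forward orbit has bounded height is periodic (helper596) -/

namespace Pool.Agent.N596.KS

open Pool.Agent.N212.KS

theorem t_PER.{u, v, w} : S_PER.{u, v, w} := by
  intro X N G _ _ _ _ _ D P g x B hB
  obtain ⟨B', hB'⟩ := P.deg_pow g x
  have hfin := D.northcott B' B
  have hmaps : Set.MapsTo (fun n : ℕ => g ^ n • x) Set.univ {x : X | D.deg x ≤ B' ∧ D.H x ≤ B} :=
    fun n _ => ⟨hB' n, hB n⟩
  obtain ⟨a, _, b, _, hab, h⟩ := Set.infinite_univ.exists_lt_map_eq_of_mapsTo hmaps hfin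
  refine ⟨b - a, by omega, ?_⟩
  have h1 : g ^ b = g ^ a * g ^ (b - a) := by rw [← pow_add]; congr 1; omega
  have h2 : g ^ a • x = g ^ a • (g ^ (b - a) • x) := by
    rw [← mul_smul, ← h1]
    exact h
  exact (MulAction.injective (g ^ a) h2).symm

end Pool.Agent.N596.KS
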