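import Pool.Agent.N657.QR.Stm

/-! Project QR (helper657), piece IRB: the infrared bound at the neutral point. -/

namespace Pool.Agent.N596.QRIRB

open Pool.Agent.N657.QR

section General

variable {V : Type} [Fintype V] [DecidableEq V]

lemma tot_dl (x : V) : tot (dl x) = 1 := by
  unfold tot dl
  simp

lemma tot_add (n m : V → ℤ) : tot (n + m) = tot n + tot m := by
  unfold tot
  simp [Finset.sum_add_distrib]

lemma tot_sub (n m : V → ℤ) : tot (n - m) = tot n - tot m := by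
  unfold tot
  simp [Finset.sum_sub_distrib]

lemma tot_hp (x y : V) (n : V → ℤ) : tot (hp x y n) = tot n := by
  unfold hp
  rw [tot_sub, tot_add, tot_dl, tot_dl]
  ring

lemma summable_mul {α : Type} {a b : α → ℝ} (ha : Summable fun n => a n ^ 2)
    (hb : Summable fun n => b n ^ 2) : Summable fun n => a n * b n := by
  refine Summable.of_norm_bounded (ha.add hb) fun n => ?_
  rw [Real.norm_eq_abs, abs_mul]
  nlinarith [sq_nonneg (|a n| - |b n|), sq_abs (a n), sq_abs (b n), abs_nonneg (a n),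
    abs_nonneg (b n), mul_nonneg (abs_nonneg (a n)) (abs_nonneg (b n))]

lemma summable_shift {a : (V → ℤ) → ℝ} (ha : Summable fun n => a n ^ 2) (v : V → ℤ) :
    Summable fun n => a (n + v) ^ 2 :=
  (Equiv.addRight v).summable_iff.2 ha

variable {Ψ φ : (V → ℤ) → ℝ} (hΨ : ∀ n, tot n ≠ 0 → Ψ n = 0)
  (hφ : ∀ n, tot n ≠ 1 → tot n ≠ -1 → φ n = 0)

include hΨ hφ

lemma mul_zero' (n : V → ℤ) : Ψ n * φ n = 0 := by
  by_cases h : tot n = 0
  · rw [hφ n (by omega) (by omega), mul_zero]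
  · rw [hΨ n h, zero_mul]

lemma pt1 (c : ℝ) (n : V → ℤ) : (Ψ n + c * φ n) ^ 2 = Ψ n ^ 2 + c ^ 2 * φ n ^ 2 := by
  have := mul_zero' hΨ hφ n
  linear_combination (2 * c) * this

lemma pt2 (c : ℝ) (x y : V) (n : V → ℤ) :
    (Ψ (hp x y n) + c * φ (hp x y n)) * (Ψ n + c * φ n) =
      Ψ (hp x y n) * Ψ n + c ^ 2 * (φ (hp x y n) * φ n) := by
  have ht := tot_hp x y n
  by_cases h : tot n = 0
  · rw [hφ n (by omega) (by omega), hφ (hp x y n) (by omega) (by omega)]
    ring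
  · rw [hΨ n h, hΨ (hp x y n) (by omega)]
    ring

lemma pt3 (c : ℝ) (x : V) (n : V → ℤ) :
    (Ψ (n + dl x) + c * φ (n + dl x)) * (Ψ n + c * φ n) =
      c * (Ψ (n + dl x) * φ n + φ (n + dl x) * Ψ n) := by
  have ht : tot (n + dl x) = tot n + 1 := by rw [tot_add, tot_dl]
  by_cases h : tot n = 0
  · rw [hφ n (by omega) (by omega), hΨ (n + dl x) (by omega)]
    ring
  · rw [hΨ n h]
    by_cases h1 : tot n = 1 ∨ tot n = -1
    · rw [hφ (n + dl x) (by omega) (by omega)]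
      ring
    · rw [hφ n (by tauto) (by tauto)]
      ring

lemma FE_add (h1 : FE Ψ) (h2 : FE φ) (c : ℝ) : FE (fun n => Ψ n + c * φ n) := by
  constructor
  · refine (h1.1.add (h2.1.mul_left (c ^ 2))).congr fun n => ?_
    exact (pt1 hΨ hφ c n).symm
  · refine (h1.2.add (h2.2.mul_left (c ^ 2))).congr fun n => ?_
    rw [pt1 hΨ hφ c n]
    ring

lemma nr_add (h1 : FE Ψ) (h2 : FE φ) (c : ℝ) :
    nr (fun n => Ψ n + c * φ n) = nr Ψ + c ^ 2 * nr φ := by
  unfold nr
  rw [tsum_congr (pt1 hΨ hφ c), (h1.1).tsum_add (h2.1.mul_left _), tsum_mul_left]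

lemma FF_add (hB : S_BAS) (K : Matrix V V ℝ) (w : V → V → ℝ) (ν : V → ℝ) (h1 : FE Ψ)
    (h2 : FE φ) (c : ℝ) :
    FF K w ν (fun n => Ψ n + c * φ n) = FF K w ν Ψ + c ^ 2 * FF K w ν φ := by
  have e1 : po K ν (fun n => Ψ n + c * φ n) = po K ν Ψ + c ^ 2 * po K ν φ := by
    unfold po
    have e : ∀ n, pot K ν n * (Ψ n + c * φ n) ^ 2 =
        pot K ν n * Ψ n ^ 2 + c ^ 2 * (pot K ν n * φ n ^ 2) := by
      intro n
      rw [pt1 hΨ hφ c n]
      ring
    rw [tsum_congr e, (hB.posum K ν Ψ h1).tsum_add ((hB.posum K ν φ h2).mul_left _), tsum_mul_left]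
  have e2 : ∀ x y, cr x y (fun n => Ψ n + c * φ n) = cr x y Ψ + c ^ 2 * cr x y φ := by
    intro x y
    unfold cr
    rw [tsum_congr (pt2 hΨ hφ c x y), (hB.crsum x y Ψ h1.1).tsum_add
      ((hB.crsum x y φ h2.1).mul_left _), tsum_mul_left]
  unfold FF
  rw [e1]
  simp only [e2]
  have e3 : ∑ x, ∑ y, w x y * (cr x y Ψ + c ^ 2 * cr x y φ) =
      ∑ x, ∑ y, w x y * cr x y Ψ + c ^ 2 * ∑ x, ∑ y, w x y * cr x y φ := by
    rw [Finset.mul_sum, ← Finset.sum_add_distrib]
    refine Finset.sum_congr rfl fun x _ => ?_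
    rw [Finset.mul_sum, ← Finset.sum_add_distrib]
    refine Finset.sum_congr rfl fun y _ => ?_
    ring
  rw [e3]
  ring

omit hΨ hφ in
lemma shift_tsum (x : V) : ∑' n, φ (n + dl x) * Ψ n = ∑' n, Ψ (n - dl x) * φ n := by
  rw [← (Equiv.addRight (dl x)).tsum_eq (fun n => Ψ (n - dl x) * φ n)]
  refine tsum_congr fun n => ?_
  simp only [Equiv.coe_addRight, add_sub_cancel_right]
  ring

lemma xx_add (h1 : FE Ψ) (h2 : FE φ) (c : ℝ) (x : V) :
    xx x (fun n => Ψ n + c * φ n) = c * ∑' n, (Ψ (n + dl x) + Ψ (n - dl x)) * φ n := by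
  have s1 : Summable fun n => Ψ (n + dl x) * φ n := summable_mul (summable_shift h1.1 _) h2.1
  have s2 : Summable fun n => φ (n + dl x) * Ψ n := summable_mul (summable_shift h2.1 _) h1.1
  have s3 : Summable fun n => Ψ (n - dl x) * φ n := by
    have := summable_shift h1.1 (-dl x)
    simp only [← sub_eq_add_neg] at this
    exact summable_mul this h2.1
  unfold xx
  rw [tsum_congr (pt3 hΨ hφ c x), tsum_mul_left, s1.tsum_add s2,
    shift_tsum (Ψ := Ψ) (φ := φ) x, ← s1.tsum_add s3]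
  congr 1
  refine tsum_congr fun n => ?_
  ring

end General

section Phi

variable {V : Type} [Fintype V] [DecidableEq V]

lemma XA_supp {Ψ : (V → ℤ) → ℝ} (hΨ : ∀ n, tot n ≠ 0 → Ψ n = 0) (g : V → ℝ) (n : V → ℤ)
    (h1 : tot n ≠ 1) (h2 : tot n ≠ -1) : XA g Ψ n = 0 := by
  unfold XA
  rw [Finset.sum_eq_zero, zero_div]
  intro x _
  rw [hΨ (n + dl x) (by rw [tot_add, tot_dl]; omega), hΨ (n - dl x) (by rw [tot_sub, tot_dl]; omega)]
  ring

lemma sum_xx {Ψ : (V → ℤ) → ℝ} (hΨ : ∀ n, tot n ≠ 0 → Ψ n = 0) (g : V → ℝ) (h1 : FE Ψ)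
    (h2 : FE (XA g Ψ)) (c : ℝ) :
    ∑ x, g x * xx x (fun n => Ψ n + c * XA g Ψ n) = 2 * c * nr (XA g Ψ) := by
  set φ := XA g Ψ with hφdef
  have hφ : ∀ n, tot n ≠ 1 → tot n ≠ -1 → φ n = 0 := fun n h1 h2 => XA_supp hΨ g n h1 h2
  have e1 : ∀ x, g x * xx x (fun n => Ψ n + c * φ n) =
      c * ∑' n, g x * ((Ψ (n + dl x) + Ψ (n - dl x)) * φ n) := by
    intro x
    rw [xx_add hΨ hφ h1 h2, tsum_mul_left]
    ring
  rw [Finset.sum_congr rfl (fun x _ => e1 x), ← Finset.mul_sum, ← Summable.tsum_finsetSum]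
  · have e2 : ∀ n, ∑ x, g x * ((Ψ (n + dl x) + Ψ (n - dl x)) * φ n) = 2 * φ n ^ 2 := by
      intro n
      have e3 : φ n = (∑ x, g x * (Ψ (n + dl x) + Ψ (n - dl x))) / 2 := rfl
      have e4 : ∑ x, g x * ((Ψ (n + dl x) + Ψ (n - dl x)) * φ n) =
          (∑ x, g x * (Ψ (n + dl x) + Ψ (n - dl x))) * φ n := by
        rw [Finset.sum_mul]
        refine Finset.sum_congr rfl fun x _ => ?_
        ring
      rw [e4]
      have e5 : ∑ x, g x * (Ψ (n + dl x) + Ψ (n - dl x)) = 2 * φ n := by rw [e3]; ring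
      rw [e5]
      ring
    rw [tsum_congr e2, tsum_mul_left]
    unfold nr
    ring
  · intro x _
    apply Summable.mul_left
    have s1 := summable_shift h1.1 (dl x)
    have s3 := summable_shift h1.1 (-dl x)
    simp only [← sub_eq_add_neg] at s3
    exact ((summable_mul s1 h2.1).add (summable_mul s3 h2.1)).congr fun n => by ring

end Phi

/-- IRB -/
theorem main (hB : S_BAS) (hG : S_GD) (hD : S_DC) : S_IRB := by
  intro d L _ U J l Ψ f hL hU hJ hl hG' hf
  set K : Matrix (Fin d → ZMod L) (Fin d → ZMod L) ℝ :=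
    U • (1 : Matrix (Fin d → ZMod L) (Fin d → ZMod L) ℝ) with hK
  have hw : ∀ x y : Fin d → ZMod L, 0 ≤ nnw J x y := by
    intro x y
    unfold nnw
    refine Finset.sum_nonneg fun i _ => ?_
    split_ifs
    · exact hJ.le
    · exact le_rfl
  obtain ⟨hFE, hSec, hnr, hFF⟩ := hG'
  obtain ⟨hφFE, hφnr, hφFF⟩ := hD U (nnw J) Ψ f hU hw ⟨hFE, hSec, hnr, hFF⟩
  rw [← hK] at hφFF
  have hΨ : ∀ n, tot n ≠ 0 → Ψ n = 0 := by
    intro n hn
    by_contra h
    exact hn (hSec n h)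
  set φ := XA f Ψ with hφdef
  have hφ : ∀ n, tot n ≠ 1 → tot n ≠ -1 → φ n = 0 := fun n h1 h2 => XA_supp hΨ f n h1 h2
  set E := en K (nnw J) 0 0 with hE
  set S := ∑ x, f x ^ 2 with hS
  set P := nr φ with hP
  have hS0 : 0 ≤ S := Finset.sum_nonneg fun x _ => sq_nonneg _
  have hP0 : 0 ≤ P := tsum_nonneg fun n => sq_nonneg _
  -- the inequality
  have key : ∀ t c : ℝ, 0 ≤ c ^ 2 * (U / 2 * S) - J * l * (t * (2 * c * P)) +
      J * l / 2 * (t ^ 2 * S) * (1 + c ^ 2 * P) := by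
    intro t c
    have h1 := hG d L U J l (fun x => t * f x) hL hU.le hJ.le (by
      intro x
      have h2 := hf x
      unfold lap at h2 ⊢
      have e : ∑ i : Fin d, (2 * (t * f x) - t * f (x + ee i) - t * f (x - ee i)) =
          t * ∑ i : Fin d, (2 * f x - f (x + ee i) - f (x - ee i)) := by
        rw [Finset.mul_sum]
        refine Finset.sum_congr rfl fun i _ => ?_
        ring
      rw [e, h2]
      ring) (fun n => Ψ n + c * φ n) (FE_add hΨ hφ hFE hφFE c)
    rw [← hK, ← hE, nr_add hΨ hφ hFE hφFE, FF_add hΨ hφ hB K (nnw J) 0 hFE hφFE, hnr, hFF,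
      hφFF, ← hP] at h1
    have e1 : ∑ x, t * f x * xx x (fun n => Ψ n + c * φ n) = t * (2 * c * P) := by
      rw [hP, ← sum_xx hΨ f hFE hφFE c, Finset.mul_sum]
      refine Finset.sum_congr rfl fun x _ => ?_
      ring
    have e2 : ∑ x, (t * f x) ^ 2 = t ^ 2 * S := by
      rw [hS, Finset.mul_sum]
      refine Finset.sum_congr rfl fun x _ => ?_
      ring
    rw [e1, e2] at h1
    nlinarith [h1]
  set s := Real.sqrt (J * l / U) with hs
  have hs0 : 0 < s := Real.sqrt_pos.2 (by positivity)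
  have hs2 : s ^ 2 = J * l / U := Real.sq_sqrt (by positivity)
  have hs3 : s ^ 2 * U = J * l := by rw [hs2]; field_simp
  -- the limit `t → 0`
  have key2 : 0 ≤ s ^ 2 * (U / 2 * S) - J * l * (2 * s * P) + J * l / 2 * S := by
    by_contra hcon
    push Not at hcon
    set A := s ^ 2 * (U / 2 * S) - J * l * (2 * s * P) + J * l / 2 * S with hA
    set B := J * l / 2 * S * (s ^ 2 * P) with hBdef
    have hB0 : 0 ≤ B := by positivity
    set T := -A / (B + 1) with hT
    have hT0 : 0 < T := div_pos (by linarith) (by linarith)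
    have hT1 : T * (B + 1) = -A := by rw [hT]; field_simp
    have h1 := key (Real.sqrt T) (Real.sqrt T * s)
    have h2 : Real.sqrt T ^ 2 = T := Real.sq_sqrt hT0.le
    have h3 : (Real.sqrt T * s) ^ 2 * (U / 2 * S) - J * l * (Real.sqrt T * (2 * (Real.sqrt T * s) * P)) +
        J * l / 2 * (Real.sqrt T ^ 2 * S) * (1 + (Real.sqrt T * s) ^ 2 * P) = T * (A + T * B) := by
      have e : (Real.sqrt T * s) ^ 2 * (U / 2 * S) -
          J * l * (Real.sqrt T * (2 * (Real.sqrt T * s) * P)) +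
          J * l / 2 * (Real.sqrt T ^ 2 * S) * (1 + (Real.sqrt T * s) ^ 2 * P) =
          Real.sqrt T ^ 2 * (s ^ 2 * (U / 2 * S) - J * l * (2 * s * P) + J * l / 2 * S +
            Real.sqrt T ^ 2 * (J * l / 2 * S * (s ^ 2 * P))) := by ring
      rw [e, h2]
    rw [h3] at h1
    have h4 : 0 ≤ A + T * B := by
      by_contra h5
      push Not at h5
      have := mul_neg_of_pos_of_neg hT0 h5
      linarith
    nlinarith
  have h5 : 2 * s * P ≤ S := by
    have h6 : J * l * (2 * s * P) ≤ J * l * S := by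
      have : s ^ 2 * (U / 2 * S) = J * l * S / 2 := by
        rw [← hs3]; ring
      rw [this] at key2
      linarith
    exact le_of_mul_le_mul_left h6 (by positivity)
  have h6 : Real.sqrt (U / J) / Real.sqrt l = s⁻¹ := by
    rw [hs, ← Real.sqrt_div (by positivity), ← Real.sqrt_inv]
    congr 1
    field_simp
  rw [h6]
  have h7 : ∑ x, ∑ y, f x * f y * cr x y Ψ = 2 * P := by
    rw [hφnr]; ring
  rw [h7, inv_mul_eq_div, le_div_iff₀ hs0]
  linarith

end Pool.Agent.N596.QRIRB
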